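import Pool.Agent.H54.NS.Squeeze

/-!
Stabilisers of leaves are trivial (problem MP_90715c_gt, NoSeparation, section 4).
-/

open Matrix Set Filter Topology MeasureTheory

namespace Pool.Agent.H81.NS.B

open Pool.Agent.H90.WC Pool.Agent.H81.TG

lemma wl_compl (U : Set (OnePoint ℂ)) (f : G) (b : Bool) : (Wl U f b)ᶜ = Wl U f (!b) := by
  unfold Wl
  cases b
  · show (mv f U)ᶜᶜ = mv f U
    rw [compl_compl]
  · rfl

/-- Complements of leaves are leaves. -/
lemma Lf.compl' {Γ : Subgroup G} {U X : Set (OnePoint ℂ)} (h : Lf Γ U X) : Lf Γ U Xᶜ where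
  meas := h.meas.compl
  pos := h.cpos
  cpos := by rw [compl_compl]; exact h.pos
  lim := by
    intro ε hε
    obtain ⟨f, hf, b, hb⟩ := h.lim ε hε
    refine ⟨f, hf, !b, ?_⟩
    rw [← wl_compl, ds_compl]
    exact hb

/-- Two leaves which are close to a leaf are comparable. -/
lemma comparable (T : Tool) {Γ : Subgroup G} {U X Y L : Set (OnePoint ℂ)}
    (hN : ∀ X Y, Lf Γ U X → Lf Γ U Y → Nst X Y) (hX : Lf Γ U X) (hY : Lf Γ U Y)
    (h1 : ds L X + ds L Y < lam 1 L) (h2 : ds L X + ds L Y < lam 1 Lᶜ) :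
    Sub X Y ∨ Sub Y X := by
  have a1 := lam_diff_le_sd T 1 L X
  have a2 := lam_diff_le_sd' T 1 L X
  have b1 := lam_diff_le_sd T 1 L Y
  have b2 := lam_diff_le_sd' T 1 L Y
  change _ ≤ ds L X at a1 a2
  change _ ≤ ds L Y at b1 b2
  rcases hN X Y hX hY with h | h | h | h
  · exact Or.inl h
  · exact Or.inr h
  · exfalso
    rw [sub_compl_right_iff] at h
    have e : L ⊆ (X ∩ Y) ∪ ((L \ X) ∪ (L \ Y)) := by
      intro x hx
      by_cases ha : x ∈ X
      · by_cases hb : x ∈ Y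
        · exact Or.inl ⟨ha, hb⟩
        · exact Or.inr (Or.inr ⟨hx, hb⟩)
      · exact Or.inr (Or.inl ⟨hx, ha⟩)
    have t1 := (lam_mono T 1 e).trans (lam_union_le T 1 _ _)
    have t2 := lam_union_le T 1 (L \ X) (L \ Y)
    linarith
  · exfalso
    rw [sub_compl_left_iff] at h
    have e : Lᶜ ⊆ (X ∪ Y)ᶜ ∪ ((X \ L) ∪ (Y \ L)) := by
      intro x hx
      by_cases ha : x ∈ X
      · exact Or.inr (Or.inl ⟨ha, hx⟩)
      · by_cases hb : x ∈ Y
        · exact Or.inr (Or.inr ⟨hb, hx⟩)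
        · exact Or.inl (fun h => h.elim ha hb)
    have t1 := (lam_mono T 1 e).trans (lam_union_le T 1 _ _)
    have t2 := lam_union_le T 1 (X \ L) (Y \ L)
    linarith

/-- **Stabilisers of leaves are trivial.** -/
theorem stab (T : Tool) {Γ : Subgroup G} {K U : Set (OnePoint ℂ)} (hH : Hyp Γ K)
    (hN : ∀ X Y, Lf Γ U X → Lf Γ U Y → Nst X Y)
    (hW : ∀ f ∈ Γ, ∀ b, Lf Γ U (Wl U f b))
    (hnb : ∀ (f : G) (b : Bool) (x : OnePoint ℂ), x ∉ mv f K →
      x ∈ interior (Wl U f b) ∨ x ∈ interior (Wl U f b)ᶜ)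
    (hne : ∀ f ∈ Γ, ∀ f' ∈ Γ, f' ≠ f → f' ≠ -f → ∀ b b' : Bool,
      Sub (Wl U f b) (Wl U f' b') → ¬ Sub (Wl U f' b') (Wl U f b))
    {L : Set (OnePoint ℂ)} (hL : Lf Γ U L) {s : G} (hs : s ∈ Γ) (h0 : ds (mv s L) L = 0) :
    s = 1 ∨ s = -1 := by
  by_contra hcon
  push Not at hcon
  obtain ⟨hs1, hs2⟩ := hcon
  have mL := hL.meas
  have msL := meas_mv s mL
  obtain ⟨g1, g2⟩ := (ds_zero_iff T _ _).1 h0
  -- the main case
  have main : ∀ t ∈ Γ, Sub (mv t L) L → ∀ W, Lf Γ U W → Sub W (mv t W) → ¬ Sub (mv t W) W →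
      (Sub W L ∨ Sub L W) → False := by
    intro t ht htL W lW hW1 hW2 hc
    have mW := lW.meas
    have mtW := meas_mv t mW
    have mtL := meas_mv t mL
    rcases hc with hc | hc
    · exact squeeze T hH hN hW hnb lW hL ht hc hW1 hW2 htL
    · refine squeeze T hH hN hW hnb (Lf.compl' lW) (Lf.compl' hL) (Γ.inv_mem ht)
        (sub_compl.2 hc) ?_ ?_ ?_
      · rw [mv_compl]
        refine sub_compl.2 ?_
        have := sub_mv T mW mtW t⁻¹ hW1
        rwa [mv_inv_mv] at this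
      · rw [mv_compl]
        intro h
        apply hW2
        have h5 := sub_mv T mW (meas_mv t⁻¹ mW) t (sub_compl.1 h)
        rwa [mv_mv_inv] at h5
      · rw [mv_compl]
        refine sub_compl.2 ?_
        have := sub_mv T mtL mL t⁻¹ htL
        rwa [mv_inv_mv] at this
  -- a wall close to `L`
  obtain ⟨c, hc1, hc⟩ := ds_mv_le T s
  have p0 : 0 < lam 1 L := hL.pos
  have q0 : 0 < lam 1 Lᶜ := hL.cpos
  have hc' : 0 < c + 1 := by linarith
  obtain ⟨ε, hε, hε1, hε2⟩ : ∃ ε : ℝ, 0 < ε ∧ (c + 1) * ε < lam 1 L ∧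
      (c + 1) * ε < lam 1 Lᶜ := by
    have hm : 0 < min (lam 1 L) (lam 1 Lᶜ) := lt_min p0 q0
    refine ⟨min (lam 1 L) (lam 1 Lᶜ) / (2 * (c + 1)), by positivity, ?_⟩
    have e : (c + 1) * (min (lam 1 L) (lam 1 Lᶜ) / (2 * (c + 1))) =
        min (lam 1 L) (lam 1 Lᶜ) / 2 := by
      field_simp
    rw [e]
    exact ⟨(half_lt_self hm).trans_le (min_le_left _ _),
      (half_lt_self hm).trans_le (min_le_right _ _)⟩
  obtain ⟨f, hf, b, hfb⟩ := hL.lim ε hε
  have lW : Lf Γ U (Wl U f b) := hW f hf b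
  have lsW : Lf Γ U (mv s (Wl U f b)) := by
    rw [wl_mv]
    exact hW _ (Γ.mul_mem hs hf) b
  have hne1 : s * f ≠ f := by
    intro e
    apply hs1
    have : s * f = 1 * f := by rw [e, one_mul]
    exact mul_right_cancel this
  have hne2 : s * f ≠ -f := by
    intro e
    apply hs2
    have : s * f = -1 * f := by rw [e, neg_one_mul]
    exact mul_right_cancel this
  have hds : ds L (mv s (Wl U f b)) ≤ c * ε := by
    have t1 := ds_tri T L (mv s L) (mv s (Wl U f b))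
    rw [ds_comm L (mv s L), h0, zero_add] at t1
    exact t1.trans ((hc L _ mL lW.meas).trans
      (mul_le_mul_of_nonneg_left hfb.le (by linarith)))
  have hcmp := comparable T hN lW lsW (L := L) (by linarith) (by linarith)
  have cε : 0 ≤ c * ε := by positivity
  have hcL : Sub (Wl U f b) L ∨ Sub L (Wl U f b) := by
    refine comparable T hN lW hL (L := L) ?_ ?_
    · rw [ds_self]; linarith
    · rw [ds_self]; linarith
  rcases hcmp with h | h
  · refine main s hs g1 _ lW h ?_ hcL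
    rw [wl_mv] at h ⊢
    exact hne f hf _ (Γ.mul_mem hs hf) hne1 hne2 b b h
  · have h5 : ¬ Sub (Wl U f b) (mv s (Wl U f b)) := by
      intro h6
      rw [wl_mv] at h h6
      exact hne f hf _ (Γ.mul_mem hs hf) hne1 hne2 b b h6 h
    refine main s⁻¹ (Γ.inv_mem hs) ?_ _ lW ?_ ?_ hcL
    · have := sub_mv T mL msL s⁻¹ g2
      rwa [mv_inv_mv] at this
    · have := sub_mv T lsW.meas lW.meas s⁻¹ h
      rwa [mv_inv_mv] at this
    · intro h6
      apply h5
      have := sub_mv T (meas_mv s⁻¹ lW.meas) lW.meas s h6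
      rwa [mv_mv_inv] at this

end Pool.Agent.H81.NS.B
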