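import Pool.Agent.H33.NS.Bas

/-!
The squeeze lemma (problem MP_90715c_gt, NoSeparation, section 3).
-/

open Matrix Set Filter Topology MeasureTheory

namespace Pool.Agent.H81.NS.B

open Pool.Agent.H90.WC Pool.Agent.H81.TG

/-! ### Discrete groups -/

lemma finite_of_compact {Γ : Subgroup G}
    (hd : ∃ U : Set G, IsOpen U ∧ (1 : G) ∈ U ∧ ∀ g ∈ Γ, g ∈ U → g = 1) {C : Set G}
    (hC : IsCompact C) : ((Γ : Set G) ∩ C).Finite := by
  obtain ⟨U, hU, h1, hU1⟩ := hd
  have hcont : Continuous fun p : G × G => p.1⁻¹ * p.2 := by fun_prop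
  have hn : (fun p : G × G => p.1⁻¹ * p.2) ⁻¹' U ∈ 𝓝 ((1 : G), (1 : G)) := by
    apply (hU.preimage hcont).mem_nhds
    show (1 : G)⁻¹ * 1 ∈ U
    simpa using h1
  rw [nhds_prod_eq] at hn
  obtain ⟨V, hV, V', hV', hVV⟩ := mem_prod_iff.1 hn
  have hW : V ∩ V' ∈ 𝓝 (1 : G) := inter_mem hV hV'
  have hx : ∀ x ∈ C, (fun y => x⁻¹ * y) ⁻¹' (V ∩ V') ∈ 𝓝 x := by
    intro x _
    have hc : Continuous fun y : G => x⁻¹ * y := by fun_prop
    apply hc.continuousAt.preimage_mem_nhds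
    rw [inv_mul_cancel]
    exact hW
  obtain ⟨t, ht, htC⟩ := hC.elim_nhds_subcover (fun x => (fun y => x⁻¹ * y) ⁻¹' (V ∩ V')) hx
  have hsub : (Γ : Set G) ∩ C ⊆ ⋃ x ∈ t, (Γ : Set G) ∩ (fun y => x⁻¹ * y) ⁻¹' (V ∩ V') := by
    rintro g ⟨hg, hgC⟩
    obtain ⟨x, hxt, hgx⟩ := mem_iUnion₂.1 (htC hgC)
    exact mem_iUnion₂.2 ⟨x, hxt, hg, hgx⟩
  refine (Set.Finite.biUnion t.finite_toSet fun x _ => ?_).subset hsub
  apply Set.Subsingleton.finite
  rintro g ⟨hg, hgV⟩ g' ⟨hg', hgV'⟩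
  have h2 : (x⁻¹ * g, x⁻¹ * g') ∈ V ×ˢ V' := ⟨hgV.1, hgV'.2⟩
  have h3 := hVV h2
  have h4 : g⁻¹ * g' ∈ U := by
    have e : (x⁻¹ * g)⁻¹ * (x⁻¹ * g') = g⁻¹ * g' := by group
    rw [← e]
    exact h3
  have h5 := hU1 _ (Γ.mul_mem (Γ.inv_mem hg) hg') h4
  exact inv_mul_eq_one.1 h5

lemma tendsto_cocompact {Γ : Subgroup G}
    (hd : ∃ U : Set G, IsOpen U ∧ (1 : G) ∈ U ∧ ∀ g ∈ Γ, g ∈ U → g = 1) {s : ℕ → G}
    (hs : ∀ j, s j ∈ Γ) (hinj : Function.Injective s) : Tendsto s atTop (cocompact G) := by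
  rw [← Nat.cofinite_eq_atTop]
  intro T hT
  obtain ⟨C, hC, hCT⟩ := mem_cocompact.1 hT
  rw [mem_map, mem_cofinite]
  refine ((finite_of_compact hd hC).preimage hinj.injOn).subset ?_
  intro j hj
  refine ⟨hs j, ?_⟩
  by_contra h
  exact hj (hCT h)

/-! ### The ideal limit lies in the frontiers -/

lemma wl_mv (U : Set (OnePoint ℂ)) (s f : G) (b : Bool) : mv s (Wl U f b) = Wl U (s * f) b := by
  unfold Wl
  cases b
  · show mv s (mv f U)ᶜ = (mv (s * f) U)ᶜ
    rw [mv_compl, mv_mul]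
  · show mv s (mv f U) = mv (s * f) U
    rw [mv_mul]

lemma mem_frontier_of_bounds (T : Tool) {V : Set (OnePoint ℂ)}
    {F : Ultrafilter ℕ} {k : ℕ → G} {q : OnePoint ℂ}
    (hq : ∀ E, IsClosed E → q ∉ E → Tendsto (fun i => lam (k i) E) F (𝓝 0)) {c : ℝ} (hc : 0 < c)
    (h1 : ∀ i, c ≤ lam (k i) V) (h2 : ∀ i, c ≤ lam (k i) Vᶜ) :
    ¬ (q ∈ interior V ∨ q ∈ interior Vᶜ) := by
  rintro (h | h)
  · have h3 := hq (interior V)ᶜ isOpen_interior.isClosed_compl (fun h' => h' h)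
    have h4 : ∀ i, c ≤ lam (k i) (interior V)ᶜ := fun i =>
      (h2 i).trans (lam_mono T _ (compl_subset_compl.2 interior_subset))
    exact absurd (ge_of_tendsto h3 (Eventually.of_forall h4)) (not_le.2 hc)
  · have h3 := hq (interior Vᶜ)ᶜ isOpen_interior.isClosed_compl (fun h' => h' h)
    have h4 : ∀ i, c ≤ lam (k i) (interior Vᶜ)ᶜ := fun i =>
      (h1 i).trans (lam_mono T _ (by
        rw [subset_compl_comm]
        exact interior_subset))
    exact absurd (ge_of_tendsto h3 (Eventually.of_forall h4)) (not_le.2 hc)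

/-- **Squeeze lemma.** -/
theorem squeeze (T : Tool) {Γ : Subgroup G} {K U : Set (OnePoint ℂ)} (hH : Hyp Γ K)
    (hN : ∀ X Y, Lf Γ U X → Lf Γ U Y → Nst X Y)
    (hW : ∀ f ∈ Γ, ∀ b, Lf Γ U (Wl U f b))
    (hnb : ∀ (f : G) (b : Bool) (x : OnePoint ℂ), x ∉ mv f K →
      x ∈ interior (Wl U f b) ∨ x ∈ interior (Wl U f b)ᶜ)
    {A L : Set (OnePoint ℂ)} (hA : Lf Γ U A) (hL : Lf Γ U L) {s : G} (hs : s ∈ Γ)
    (hAL : Sub A L) (h1 : Sub A (mv s A)) (h2 : ¬ Sub (mv s A) A) (h3 : Sub (mv s L) L) :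
    False := by
  have mA := hA.meas
  have mL := hL.meas
  have msA := meas_mv s mA
  have msL := meas_mv s mL
  have hsAsL : Sub (mv s A) (mv s L) := sub_mv T mA mL s hAL
  have hsAL : Sub (mv s A) L := sub_trans T hsAsL h3
  -- the constants
  have a0 : 0 < lam 1 A := hA.pos
  have c0 : 0 < lam 1 Lᶜ := hL.cpos
  have e0 : 0 < lam 1 (mv s A \ A) := (not_sub_iff T msA mA 1).1 h2
  have d0 : 0 < lam 1 (L \ A) := by
    have h := lam_diff_tri T 1 (mv s A) L A
    have h' : lam 1 (mv s A \ L) = 0 := hsAL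
    linarith
  have sc0 : 0 < lam 1 (mv s A)ᶜ := by
    refine c0.trans_le ?_
    have : Sub Lᶜ (mv s A)ᶜ := sub_compl.2 hsAL
    exact lam_le_of_sub T mL.compl msA.compl this 1
  obtain ⟨c, hc1, hc⟩ := ds_mv_le T s
  obtain ⟨ε, hε, hε1, hε2, hε3, hε4, hε5⟩ : ∃ ε : ℝ, 0 < ε ∧ (c + 1) * ε < lam 1 A ∧
      (c + 1) * ε < lam 1 Lᶜ ∧ (c + 1) * ε < lam 1 (mv s A \ A) ∧
      (c + 1) * ε < lam 1 (L \ A) ∧ (c + 1) * ε < lam 1 (mv s A)ᶜ := by
    have hm : 0 < min (lam 1 A) (min (lam 1 Lᶜ) (min (lam 1 (mv s A \ A))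
        (min (lam 1 (L \ A)) (lam 1 (mv s A)ᶜ)))) :=
      lt_min a0 (lt_min c0 (lt_min e0 (lt_min d0 sc0)))
    set m := min (lam 1 A) (min (lam 1 Lᶜ) (min (lam 1 (mv s A \ A))
        (min (lam 1 (L \ A)) (lam 1 (mv s A)ᶜ)))) with hmdef
    have hc' : 0 < c + 1 := by linarith
    refine ⟨m / (2 * (c + 1)), by positivity, ?_⟩
    have e : (c + 1) * (m / (2 * (c + 1))) = m / 2 := by
      field_simp
    rw [e]
    have hlt : m / 2 < m := by linarith
    refine ⟨hlt.trans_le ?_, hlt.trans_le ?_, hlt.trans_le ?_, hlt.trans_le ?_, hlt.trans_le ?_⟩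
    · exact min_le_left _ _
    · exact (min_le_right _ _).trans (min_le_left _ _)
    · exact (min_le_right _ _).trans ((min_le_right _ _).trans (min_le_left _ _))
    · exact (min_le_right _ _).trans ((min_le_right _ _).trans ((min_le_right _ _).trans
        (min_le_left _ _)))
    · exact (min_le_right _ _).trans ((min_le_right _ _).trans ((min_le_right _ _).trans
        (min_le_right _ _)))
  obtain ⟨f, hf, b, hfb⟩ := hA.lim ε hε
  set W := Wl U f b with hWdef
  have lW : Lf Γ U W := hW f hf b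
  have mW := lW.meas
  have msW := meas_mv s mW
  have lsW : Lf Γ U (mv s W) := by
    rw [hWdef, wl_mv]
    exact hW _ (Γ.mul_mem hs hf) b
  have w1 : lam 1 (A \ W) < ε := (lam_diff_le_sd T 1 A W).trans_lt hfb
  have w2 : lam 1 (W \ A) < ε := (lam_diff_le_sd' T 1 A W).trans_lt hfb
  have hsd : ds (mv s A) (mv s W) ≤ c * ε :=
    (hc A W mA mW).trans (mul_le_mul_of_nonneg_left hfb.le (by linarith))
  have w3 : lam 1 (mv s A \ mv s W) ≤ c * ε := (lam_diff_le_sd T 1 _ _).trans hsd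
  have w4 : lam 1 (mv s W \ mv s A) ≤ c * ε := (lam_diff_le_sd' T 1 _ _).trans hsd
  have cε : 0 ≤ c * ε := by positivity
  have hAL' : lam 1 (A \ L) = 0 := hAL
  have hA1 : lam 1 (A \ mv s A) = 0 := h1
  -- `W` is inside `L`
  have hWL : Sub W L := by
    refine (hN W L lW hL).sub T mW mL 1 ?_ ?_ ?_
    · have := lam_diff_tri T 1 L W A
      linarith
    · have e : A ⊆ (W ∩ L) ∪ ((A \ W) ∪ (A \ L)) := by
        intro x hx
        by_cases ha : x ∈ W
        · by_cases hb : x ∈ L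
          · exact Or.inl ⟨ha, hb⟩
          · exact Or.inr (Or.inr ⟨hx, hb⟩)
        · exact Or.inr (Or.inl ⟨hx, ha⟩)
      have t1 := (lam_mono T 1 e).trans (lam_union_le T 1 _ _)
      have t2 := lam_union_le T 1 (A \ W) (A \ L)
      linarith
    · have e : Lᶜ ⊆ (W ∪ L)ᶜ ∪ ((W \ A) ∪ (A \ L)) := by
        intro x hx
        by_cases ha : x ∈ W
        · by_cases hb : x ∈ A
          · exact Or.inr (Or.inr ⟨hb, hx⟩)
          · exact Or.inr (Or.inl ⟨ha, hb⟩)
        · exact Or.inl (fun h => h.elim ha hx)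
      have t1 := (lam_mono T 1 e).trans (lam_union_le T 1 _ _)
      have t2 := lam_union_le T 1 (W \ A) (A \ L)
      linarith
  -- `W` is strictly inside its translate
  have hp : 0 < lam 1 (mv s W \ W) := by
    have t1 := lam_diff_tri T 1 (mv s A) (mv s W) A
    have t2 := lam_diff_tri T 1 (mv s W) W A
    linarith
  have hnW : ¬ Sub (mv s W) W := (not_sub_iff T msW mW 1).2 hp
  have hWsW : Sub W (mv s W) := by
    refine (hN W (mv s W) lW lsW).sub T mW msW 1 hp ?_ ?_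
    · have e : A ⊆ (W ∩ mv s W) ∪ ((A \ W) ∪ ((A \ mv s A) ∪ (mv s A \ mv s W))) := by
        intro x hx
        by_cases ha : x ∈ W
        · by_cases hb : x ∈ mv s W
          · exact Or.inl ⟨ha, hb⟩
          · by_cases hd : x ∈ mv s A
            · exact Or.inr (Or.inr (Or.inr ⟨hd, hb⟩))
            · exact Or.inr (Or.inr (Or.inl ⟨hx, hd⟩))
        · exact Or.inr (Or.inl ⟨hx, ha⟩)
      have t1 := (lam_mono T 1 e).trans (lam_union_le T 1 _ _)
      have t2 := lam_union_le T 1 (A \ W) ((A \ mv s A) ∪ (mv s A \ mv s W))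
      have t3 := lam_union_le T 1 (A \ mv s A) (mv s A \ mv s W)
      linarith
    · have e : (mv s A)ᶜ ⊆ (W ∪ mv s W)ᶜ ∪ ((W \ A) ∪ ((A \ mv s A) ∪ (mv s W \ mv s A))) := by
        intro x hx
        by_cases ha : x ∈ W
        · by_cases hb : x ∈ A
          · exact Or.inr (Or.inr (Or.inl ⟨hb, hx⟩))
          · exact Or.inr (Or.inl ⟨ha, hb⟩)
        · by_cases hd : x ∈ mv s W
          · exact Or.inr (Or.inr (Or.inr ⟨hd, hx⟩))
          · exact Or.inl (fun h => h.elim ha hd)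
      have t1 := (lam_mono T 1 e).trans (lam_union_le T 1 _ _)
      have t2 := lam_union_le T 1 (W \ A) ((A \ mv s A) ∪ (mv s W \ mv s A))
      have t3 := lam_union_le T 1 (A \ mv s A) (mv s W \ mv s A)
      linarith
  -- the powers
  have mWj : ∀ j, MeasurableSet (mv (s ^ j) W) := fun j => meas_mv _ mW
  have hstep : ∀ j, Sub (mv (s ^ j) W) (mv (s ^ (j + 1)) W) := by
    intro j
    rw [pow_succ, mv_mul]
    exact sub_mv T mW msW _ hWsW
  have hmono : ∀ i j, i ≤ j → Sub (mv (s ^ i) W) (mv (s ^ j) W) := by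
    intro i j hij
    induction j, hij using Nat.le_induction with
    | base => exact sub_refl _
    | succ j _ ih => exact sub_trans T ih (hstep j)
  have hjL : ∀ j, Sub (mv (s ^ j) W) L := by
    intro j
    induction j with
    | zero => rw [pow_zero, mv_one]; exact hWL
    | succ j ih =>
      rw [pow_succ', mv_mul]
      exact sub_trans T (sub_mv T (mWj j) mL s ih) h3
  have hWpos : 0 < lam 1 W := lW.pos
  have hlow : ∀ j, lam 1 W ≤ lam 1 (mv (s ^ j) W) := by
    intro j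
    have := hmono 0 j (Nat.zero_le _)
    rw [pow_zero, mv_one] at this
    exact lam_le_of_sub T mW (mWj j) this 1
  have hup : ∀ j, lam 1 Lᶜ ≤ lam 1 (mv (s ^ j) W)ᶜ := fun j =>
    lam_le_of_sub T mL.compl (mWj j).compl (sub_compl.2 (hjL j)) 1
  have hinj : Function.Injective fun j : ℕ => (s ^ j)⁻¹ := by
    have key : ∀ i j : ℕ, i < j → s ^ i ≠ s ^ j := by
      intro i j hij he
      apply hnW
      have h5 : Sub (mv (s ^ (i + 1)) W) (mv (s ^ j) W) := hmono _ _ hij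
      rw [← he, pow_succ, mv_mul] at h5
      exact (sub_mv_iff T msW mW (s ^ i)).1 h5
    intro i j hij
    have hij' : s ^ i = s ^ j := inv_injective hij
    rcases lt_trichotomy i j with h | h | h
    · exact absurd hij' (key i j h)
    · exact h
    · exact absurd hij'.symm (key j i h)
  have htend : Tendsto (fun j : ℕ => (s ^ j)⁻¹) (hyperfilter ℕ : Filter ℕ) (cocompact G) :=
    (tendsto_cocompact hH.disc (fun j => Γ.inv_mem (Γ.pow_mem hs j)) hinj).mono_left
      (by rw [← Nat.cofinite_eq_atTop]; exact hyperfilter_le_cofinite)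
  obtain ⟨q, hq⟩ := T.inf (hyperfilter ℕ) _ htend
  set m := min (lam 1 W) (lam 1 Lᶜ) with hmdef
  have hm0 : 0 < m := lt_min hWpos c0
  have q1 : q ∈ mv f K := by
    by_contra hqf
    refine mem_frontier_of_bounds T hq hm0 (fun i => ?_) (fun i => ?_) (hnb f b q hqf)
    · rw [← lam_one_mv]
      exact (min_le_left _ _).trans (hlow i)
    · rw [← lam_one_mv, mv_compl]
      exact (min_le_right _ _).trans (hup i)
  have q2 : q ∈ mv (s * f) K := by
    by_contra hqf
    have hnb' := hnb (s * f) b q hqf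
    rw [← wl_mv] at hnb'
    refine mem_frontier_of_bounds T hq hm0 (fun i => ?_) (fun i => ?_) hnb'
    · rw [← lam_one_mv, ← mv_mul, ← pow_succ]
      exact (min_le_left _ _).trans (hlow (i + 1))
    · rw [← lam_one_mv, mv_compl, ← mv_mul, ← pow_succ]
      exact (min_le_right _ _).trans (hup (i + 1))
  rw [mem_mv] at q1 q2
  refine hH.disj hf (Γ.mul_mem hs hf) ?_ ?_ q1 q2
  · intro e
    have e1 : s = 1 := by
      have : s * f = 1 * f := by rw [e, one_mul]
      exact mul_right_cancel this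
    apply hnW
    rw [e1, mv_one]
    exact sub_refl _
  · intro e
    have e1 : s = -1 := by
      have : s * f = -1 * f := by rw [e, neg_one_mul]
      exact mul_right_cancel this
    apply hnW
    rw [e1, mv_neg, mv_one]
    exact sub_refl _

end Pool.Agent.H81.NS.B
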